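import Pool.Agent.W188.MZ.Stm

namespace Pool.Agent.W61.MZ

open Pool.Agent.W188.MZ

noncomputable def D (η : ℝ) (M : ℕ) (s : ℂ) : ℂ :=
  (1 / (M : ℂ)) * ∑ j ∈ Finset.range M,
    Complex.exp ((η : ℂ) * s * (((2 * (j : ℝ) + 1) / M - 1 : ℝ) : ℂ))

theorem D_diff (η : ℝ) (M : ℕ) : Differentiable ℂ (D η M) := by
  unfold D
  fun_prop

theorem D_zero (η : ℝ) (M : ℕ) (hM : 0 < M) : D η M 0 = 1 := by
  unfold D
  have : (M : ℂ) ≠ 0 := by exact_mod_cast hM.ne'
  simp [this]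

theorem D_norm (η : ℝ) (hη : 0 ≤ η) (M : ℕ) (hM : 0 < M) (s : ℂ) :
    ‖D η M s‖ ≤ Real.exp (η * |s.re|) := by
  have hM' : (0 : ℝ) < M := by exact_mod_cast hM
  have h1 : ∀ j ∈ Finset.range M,
      ‖Complex.exp ((η : ℂ) * s * (((2 * (j : ℝ) + 1) / M - 1 : ℝ) : ℂ))‖
        ≤ Real.exp (η * |s.re|) := by
    intro j hj
    have hj' : (j : ℝ) + 1 ≤ M := by exact_mod_cast Finset.mem_range.1 hj
    have hj0 : (0 : ℝ) ≤ j := Nat.cast_nonneg j
    rw [Complex.norm_exp]
    apply Real.exp_le_exp.2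
    have h2 : ((η : ℂ) * s * (((2 * (j : ℝ) + 1) / M - 1 : ℝ) : ℂ)).re
        = η * (s.re * ((2 * (j : ℝ) + 1) / M - 1)) := by
      rw [Complex.re_mul_ofReal, Complex.re_ofReal_mul]
      ring
    rw [h2]
    apply mul_le_mul_of_nonneg_left _ hη
    have h3 : |(2 * (j : ℝ) + 1) / M - 1| ≤ 1 := by
      have h4 : (2 * (j : ℝ) + 1) / M ≤ 2 := by
        rw [div_le_iff₀ hM']; linarith
      have h5 : 0 ≤ (2 * (j : ℝ) + 1) / M := by positivity
      rw [abs_le]
      constructor <;> linarith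
    calc s.re * ((2 * (j : ℝ) + 1) / M - 1) ≤ |s.re * ((2 * (j : ℝ) + 1) / M - 1)| := le_abs_self _
      _ = |s.re| * |(2 * (j : ℝ) + 1) / M - 1| := abs_mul _ _
      _ ≤ |s.re| * 1 := mul_le_mul_of_nonneg_left h3 (abs_nonneg _)
      _ = |s.re| := mul_one _
  have h6 : ‖∑ j ∈ Finset.range M,
      Complex.exp ((η : ℂ) * s * (((2 * (j : ℝ) + 1) / M - 1 : ℝ) : ℂ))‖
      ≤ M * Real.exp (η * |s.re|) := by
    refine (norm_sum_le _ _).trans ((Finset.sum_le_sum h1).trans ?_)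
    simp
  unfold D
  rw [norm_mul, norm_div, norm_one, Complex.norm_natCast]
  calc 1 / (M : ℝ) * ‖∑ j ∈ Finset.range M,
      Complex.exp ((η : ℂ) * s * (((2 * (j : ℝ) + 1) / M - 1 : ℝ) : ℂ))‖
      ≤ 1 / (M : ℝ) * (M * Real.exp (η * |s.re|)) :=
        mul_le_mul_of_nonneg_left h6 (by positivity)
    _ = Real.exp (η * |s.re|) := by field_simp

theorem D_tel (η : ℝ) (M : ℕ) (hM : 0 < M) (s : ℂ) :
    D η M s * (M * (Complex.exp ((η : ℂ) * s / M) - Complex.exp (-((η : ℂ) * s / M))))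
      = Complex.exp ((η : ℂ) * s) - Complex.exp (-((η : ℂ) * s)) := by
  have hM' : (M : ℂ) ≠ 0 := by exact_mod_cast hM.ne'
  have h1 : ∀ j ∈ Finset.range M,
      Complex.exp ((η : ℂ) * s * (((2 * (j : ℝ) + 1) / M - 1 : ℝ) : ℂ)) *
        (Complex.exp ((η : ℂ) * s / M) - Complex.exp (-((η : ℂ) * s / M)))
      = Complex.exp ((η : ℂ) * s * ((2 * ((j + 1 : ℕ) : ℂ)) / M - 1))
        - Complex.exp ((η : ℂ) * s * ((2 * (j : ℂ)) / M - 1)) := by
    intro j _
    rw [mul_sub, ← Complex.exp_add, ← Complex.exp_add]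
    congr 1
    · congr 1
      push_cast
      field_simp
      ring
    · congr 1
      push_cast
      field_simp
      ring
  have h2 : (∑ j ∈ Finset.range M,
      Complex.exp ((η : ℂ) * s * (((2 * (j : ℝ) + 1) / M - 1 : ℝ) : ℂ))) *
        (Complex.exp ((η : ℂ) * s / M) - Complex.exp (-((η : ℂ) * s / M)))
      = Complex.exp ((η : ℂ) * s) - Complex.exp (-((η : ℂ) * s)) := by
    rw [Finset.sum_mul, Finset.sum_congr rfl h1,
      Finset.sum_range_sub (fun j : ℕ => Complex.exp ((η : ℂ) * s * ((2 * (j : ℂ)) / M - 1)))]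
    congr 1
    · congr 1
      field_simp
      ring
    · congr 1
      simp
  rw [← h2]
  unfold D
  field_simp

theorem im_bound (z : ℂ) (hz : |z.im| ≤ 1 / 2) :
    |z.im| ≤ ‖Complex.exp z - Complex.exp (-z)‖ := by
  have h1 : (Complex.exp z - Complex.exp (-z)).im
      = (Real.exp z.re + Real.exp (-z.re)) * Real.sin z.im := by
    rw [Complex.sub_im, Complex.exp_im, Complex.exp_im, Complex.neg_re, Complex.neg_im, Real.sin_neg]
    ring
  have h2 : 2 / Real.pi * |z.im| ≤ |Real.sin z.im| :=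
    Real.mul_abs_le_abs_sin (by linarith [Real.pi_gt_three])
  have h3 : (2 : ℝ) ≤ Real.exp z.re + Real.exp (-z.re) := by
    have := Real.one_le_cosh z.re
    rw [Real.cosh_eq] at this
    linarith
  have h4 : |z.im| ≤ 2 * (2 / Real.pi * |z.im|) := by
    have h5 : (1 : ℝ) ≤ 2 * (2 / Real.pi) := by
      rw [← mul_div_assoc, le_div_iff₀ Real.pi_pos]
      linarith [Real.pi_lt_four]
    calc |z.im| = 1 * |z.im| := (one_mul _).symm
      _ ≤ (2 * (2 / Real.pi)) * |z.im| := mul_le_mul_of_nonneg_right h5 (abs_nonneg _)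
      _ = 2 * (2 / Real.pi * |z.im|) := by ring
  calc |z.im| ≤ 2 * (2 / Real.pi * |z.im|) := h4
    _ ≤ (Real.exp z.re + Real.exp (-z.re)) * |Real.sin z.im| :=
        mul_le_mul h3 h2 (by positivity) (by linarith)
    _ = |(Complex.exp z - Complex.exp (-z)).im| := by
        rw [h1, abs_mul, abs_of_pos (by positivity : (0:ℝ) < Real.exp z.re + Real.exp (-z.re))]
    _ ≤ ‖Complex.exp z - Complex.exp (-z)‖ := Complex.abs_im_le_norm _

theorem D_dec (η : ℝ) (hη : 0 ≤ η) (M : ℕ) (hM : 0 < M) (s : ℂ) (hs : η * |s.im| / M ≤ 1 / 2) :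
    ‖D η M s‖ * (η * |s.im|) ≤ 2 * Real.exp (η * |s.re|) := by
  have hM' : (0 : ℝ) < M := by exact_mod_cast hM
  have hMc : (M : ℂ) ≠ 0 := by exact_mod_cast hM.ne'
  have h0 : ((η : ℂ) * s / M).im = η * s.im / M := by
    rw [show (η : ℂ) * s / M = ((η / M : ℝ) : ℂ) * s by push_cast; ring, Complex.im_ofReal_mul]
    ring
  have h1 : |((η : ℂ) * s / M).im| = η * |s.im| / M := by
    rw [h0, abs_div, abs_mul, abs_of_nonneg hη, abs_of_pos hM']
  have h2 := im_bound ((η : ℂ) * s / M) (by rw [h1]; exact hs)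
  rw [h1] at h2
  have h3 := congrArg norm (D_tel η M hM s)
  rw [norm_mul, norm_mul, Complex.norm_natCast] at h3
  have h4 : ‖Complex.exp ((η : ℂ) * s) - Complex.exp (-((η : ℂ) * s))‖
      ≤ 2 * Real.exp (η * |s.re|) := by
    refine (norm_sub_le _ _).trans ?_
    rw [Complex.norm_exp, Complex.norm_exp, Complex.neg_re, Complex.re_ofReal_mul]
    have h5 : Real.exp (η * s.re) ≤ Real.exp (η * |s.re|) :=
      Real.exp_le_exp.2 (mul_le_mul_of_nonneg_left (le_abs_self _) hη)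
    have h6 : Real.exp (-(η * s.re)) ≤ Real.exp (η * |s.re|) := by
      apply Real.exp_le_exp.2
      rw [← mul_neg]
      exact mul_le_mul_of_nonneg_left (neg_le_abs _) hη
    linarith
  calc ‖D η M s‖ * (η * |s.im|) = ‖D η M s‖ * (M * (η * |s.im| / M)) := by field_simp
    _ ≤ ‖D η M s‖ * (M * ‖Complex.exp ((η : ℂ) * s / M) - Complex.exp (-((η : ℂ) * s / M))‖) := by
        apply mul_le_mul_of_nonneg_left _ (norm_nonneg _)
        exact mul_le_mul_of_nonneg_left h2 hM'.le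
    _ = ‖Complex.exp ((η : ℂ) * s) - Complex.exp (-((η : ℂ) * s))‖ := h3
    _ ≤ _ := h4

theorem mz_ker : StKer := by
  intro m hm
  have hm' : (1 : ℝ) ≤ m := by exact_mod_cast hm
  have hm0 : (0 : ℝ) < m := by linarith
  refine ⟨Real.exp 9 * (9 * m * Real.exp 4) ^ m, Real.exp 16, by positivity, fun T hT => ?_⟩
  set L := Real.log T with hL
  have hL16 : 16 ≤ L := by
    rw [hL, Real.le_log_iff_exp_le (lt_of_lt_of_le (Real.exp_pos _) hT)]
    exact hT
  have hL0 : 0 < L := by linarith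
  set η := L / (4 * m) with hη
  have hη0 : 0 < η := by positivity
  obtain ⟨M, hMdef⟩ : ∃ M : ℕ, M = ⌈L ^ 2⌉₊ := ⟨_, rfl⟩
  have hML : L ^ 2 ≤ M := by rw [hMdef]; exact Nat.le_ceil _
  have hM0 : (0 : ℝ) < M := lt_of_lt_of_le (by positivity) hML
  have hM : 0 < M := by exact_mod_cast hM0
  have hKn : ∀ s : ℂ, ‖Complex.exp (s ^ 2) * Complex.exp (-((L / 2 : ℝ) : ℂ) * s) * D η M s ^ m‖
      = Real.exp (s.re ^ 2 - s.im ^ 2 - L / 2 * s.re) * ‖D η M s‖ ^ m := by
    intro s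
    rw [norm_mul, norm_mul, Complex.norm_exp, Complex.norm_exp, norm_pow, ← Real.exp_add]
    congr 2
    rw [show -((L / 2 : ℝ) : ℂ) * s = ((-(L / 2) : ℝ) : ℂ) * s by push_cast; ring,
      Complex.re_ofReal_mul, sq s, Complex.mul_re]
    ring
  refine ⟨fun s => Complex.exp (s ^ 2) * Complex.exp (-((L / 2 : ℝ) : ℂ) * s) * D η M s ^ m,
    ?_, ?_, ?_, ?_⟩
  · have := D_diff η M
    fun_prop
  · simp [D_zero η M hM]
  · intro s
    show ‖Complex.exp (s ^ 2) * Complex.exp (-((L / 2 : ℝ) : ℂ) * s) * D η M s ^ m‖ ≤ _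
    rw [hKn, Real.exp_add]
    apply mul_le_mul_of_nonneg_left _ (Real.exp_pos _).le
    refine (pow_le_pow_left₀ (norm_nonneg _) (D_norm η hη0.le M hM s) m).trans ?_
    rw [← Real.exp_nat_mul]
    apply Real.exp_le_exp.2
    apply le_of_eq
    rw [hη, ← hL]
    field_simp
  · intro s hs1 hs2
    show ‖Complex.exp (s ^ 2) * Complex.exp (-((L / 2 : ℝ) : ℂ) * s) * D η M s ^ m‖ ≤ _
    rw [hKn]
    have hσ : L * |s.re| ≤ 16 := by
      rw [le_div_iff₀ hL0] at hs1
      linarith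
    have hησ : η * |s.re| ≤ 4 := by
      rw [hη]
      have : L / (4 * m) * |s.re| = (L * |s.re|) / (4 * m) := by ring
      rw [this, div_le_iff₀ (by positivity)]
      nlinarith
    have hex : Real.exp (η * |s.re|) ≤ Real.exp 4 := Real.exp_le_exp.2 hησ
    have hD1 : ‖D η M s‖ ≤ Real.exp 4 := (D_norm η hη0.le M hM s).trans hex
    have him : η * |s.im| / M ≤ 1 / 2 := by
      rw [div_le_iff₀ hM0]
      have h1 : η * |s.im| ≤ η * (2 * L) := mul_le_mul_of_nonneg_left hs2 hη0.le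
      have h2 : η * (2 * L) = L ^ 2 / (2 * m) := by rw [hη]; field_simp; ring
      have h3 : L ^ 2 / (2 * m) ≤ L ^ 2 / 2 := by
        apply div_le_div_of_nonneg_left (by positivity) (by norm_num)
        linarith
      linarith
    have hD2 := D_dec η hη0.le M hM s him
    have hD3 : ‖D η M s‖ * (L * |s.im|) ≤ 8 * m * Real.exp 4 := by
      have h1 : ‖D η M s‖ * (L * |s.im|) = 4 * m * (‖D η M s‖ * (η * |s.im|)) := by
        rw [hη]; field_simp
      rw [h1]
      have h2 : ‖D η M s‖ * (η * |s.im|) ≤ 2 * Real.exp 4 := hD2.trans (by linarith)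
      calc 4 * m * (‖D η M s‖ * (η * |s.im|)) ≤ 4 * m * (2 * Real.exp 4) :=
            mul_le_mul_of_nonneg_left h2 (by positivity)
        _ = _ := by ring
    have hpos : 0 < 1 + L * |s.im| := by positivity
    have hD4 : ‖D η M s‖ ≤ 9 * m * Real.exp 4 / (1 + L * |s.im|) := by
      rw [le_div_iff₀ hpos]
      have h1 : Real.exp 4 ≤ m * Real.exp 4 := by
        nlinarith [Real.exp_pos 4]
      nlinarith
    have hE : Real.exp (s.re ^ 2 - s.im ^ 2 - L / 2 * s.re) ≤ Real.exp 9 := by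
      apply Real.exp_le_exp.2
      have h1 : |s.re| ≤ 1 := by
        refine hs1.trans ?_
        rw [div_le_one hL0]; exact hL16
      have h2 : s.re ^ 2 ≤ 1 := by
        rw [← sq_abs]
        nlinarith [abs_nonneg s.re]
      have h3 : -(L / 2 * s.re) ≤ 8 := by
        have := neg_abs_le s.re
        nlinarith
      nlinarith [sq_nonneg s.im]
    calc Real.exp (s.re ^ 2 - s.im ^ 2 - L / 2 * s.re) * ‖D η M s‖ ^ m
        ≤ Real.exp 9 * (9 * m * Real.exp 4 / (1 + L * |s.im|)) ^ m :=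
          mul_le_mul hE (pow_le_pow_left₀ (norm_nonneg _) hD4 m) (by positivity) (by positivity)
      _ = _ := by rw [div_pow]; ring

end Pool.Agent.W61.MZ
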